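import Pool.Agent.Run7.h383.SA.Loc

/-!
One-parameter families of subvarieties of split semiabelian varieties (helper file).
-/

set_option autoImplicit false

namespace Run7.h383.SA

open MvPolynomial Pool.Agent.R424.TG Pool.Agent.R424.PT Pool.Agent.W282.ZP Run7.h383.PK
open Pool.Agent.Results.MP_28d749_ag.RandomMultisections (curve xCoord EndRing InSubgroup)

variable {n : ℕ} {q : Fin n → ℕ} {k : ℕ} {A B : Fin n → ℂ} {κ I : Type} {N : ℕ}

/-- The member of the family at `t`: the coefficients, which are polynomials in `t` over the field of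
the algebraic numbers, are evaluated at `t`. -/
def MemberS (F : κ → MvPolynomial (Ind q k ⊕ Fin N) (Polynomial (algebraicClosure ℚ ℂ))) (t : ℂ)
    (z : Amb A B q k) : Prop :=
  OnS (fun j => (F j).support) (fun j β => Polynomial.aeval t ((F j).coeff β)) z

/-- The orders of the coefficients at the rational number `α`. -/
noncomputable def ord {σ : Type} (F : κ → MvPolynomial σ (Polynomial (algebraicClosure ℚ ℂ)))
    (α : ℚ) (j : κ) (β : σ →₀ ℕ) : ℕ :=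
  ((F j).coeff β).rootMultiplicity (algebraMap ℚ (algebraicClosure ℚ ℂ) α)

/-- The orders of the coefficients near the elements of `D`, at the places above large primes. -/
theorem near_gen [Finite κ] {σ : Type}
    (F : κ → MvPolynomial σ (Polynomial (algebraicClosure ℚ ℂ)))
    (D : Finset ℚ) (G : Finset ℂ) (hG : ∀ z ∈ G, IsAlgebraic ℚ z) :
    ∃ P₀ : ℕ, (∀ α ∈ D, α.den ≤ P₀) ∧ ∀ p : ℕ, p.Prime → P₀ < p →
      ∀ V : ValuationSubring ℂ, (p : ℂ) ∈ V.nonunits → (∀ z ∈ G, z ≠ 0 → V.valuation z = 1) ∧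
        ∀ α ∈ D, ∀ (t : ℂ) (l : ℕ), 0 < l →
          V.valuation (t - ((α : ℚ) : ℂ)) = V.valuation (p : ℂ) ^ l → ∀ j, ∀ β ∈ (F j).support,
            V.valuation (Polynomial.aeval t ((F j).coeff β)) =
              V.valuation (p : ℂ) ^ (l * ord F α j β) := by
  classical
  let ι := Σ j : κ, {β // β ∈ (F j).support}
  obtain ⟨W, hW, -, -, hnear⟩ := near' (ι := ι) (fun x => (F x.1).coeff (x.2 : _ →₀ ℕ))
    (fun x => mem_support_iff.1 x.2.2)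
    (D.image fun α : ℚ => algebraMap ℚ (algebraicClosure ℚ ℂ) α) ∅ Set.finite_empty
  have := hW.to_subtype
  obtain ⟨D₀, hD₀, halg⟩ := Pool.Agent.W466.ZP.alg_mem
    (fun z : W => algebraMap (algebraicClosure ℚ ℂ) ℂ z)
    (fun z => mem_algebraicClosure_iff.1 (z : algebraicClosure ℚ ℂ).2)
  obtain ⟨D₁, hD₁, halg₁⟩ := Pool.Agent.W466.ZP.alg_mem
    (fun z : G => (z : ℂ)) (fun z => hG z z.2)
  obtain ⟨D₂, hD₂, halg₂⟩ := Pool.Agent.W466.ZP.alg_mem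
    (fun z : G => (z : ℂ)⁻¹) (fun z => (hG z z.2).inv)
  refine ⟨D₀ + D₁ + D₂ + ∑ α ∈ D, α.den, fun α hα => ?_, fun p hp hpP V hV => ⟨fun z hz hz0 => ?_,
    fun α hα t l hl ht j β hβ => ?_⟩⟩
  · have := Finset.single_le_sum (f := fun α : ℚ => α.den) (fun _ _ => Nat.zero_le _) hα
    omega
  · have hpD1 : ¬ p ∣ D₁ := fun h => by
      have := Nat.le_of_dvd hD₁ h
      omega
    have hpD2 : ¬ p ∣ D₂ := fun h => by
      have := Nat.le_of_dvd hD₂ h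
      omega
    have h1 := (V.valuation_le_one_iff z).2 (halg₁ p hp hpD1 V hV ⟨z, hz⟩)
    have h2 := (V.valuation_le_one_iff z⁻¹).2 (halg₂ p hp hpD2 V hV ⟨z, hz⟩)
    rw [map_inv₀] at h2
    have hz' : V.valuation z ≠ 0 := (Valuation.ne_zero_iff _).2 hz0
    refine le_antisymm h1 ?_
    rwa [inv_le_one₀ (zero_lt_iff.2 hz')] at h2
  · have hpD : ¬ p ∣ D₀ := fun h => by
      have := Nat.le_of_dvd hD₀ h
      omega
    have hWV : ∀ z ∈ W, algebraMap (algebraicClosure ℚ ℂ) ℂ z ∈ V := fun z hz =>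
      halg p hp hpD V hV ⟨z, hz⟩
    have hp1 : V.valuation (p : ℂ) < 1 := by rwa [ValuationSubring.mem_nonunits_iff] at hV
    have hα' : algebraMap (algebraicClosure ℚ ℂ) ℂ (algebraMap ℚ (algebraicClosure ℚ ℂ) α) =
        ((α : ℚ) : ℂ) := by
      rw [← IsScalarTower.algebraMap_apply ℚ (algebraicClosure ℚ ℂ) ℂ]
      rfl
    have h1 := hnear V hWV (algebraMap ℚ (algebraicClosure ℚ ℂ) α)
      (Finset.mem_image_of_mem _ hα) t
      (by rw [hα', ht]; exact pow_lt_one₀ zero_le hp1 hl.ne') ⟨j, β, hβ⟩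
    rw [hα', ht, ← pow_mul] at h1
    exact h1

/-- For a family of points `w_l` of tropicalizations, with moduli `M_l`: independence. There are a set
`J` of indices `(i, a)` of points `P_{i,a}`, for every curve `E_i` one `l = c i`, and a set `R` of `l`,
with `|J| + |R| > dim 𝔖 - ρ`, such that the `P_{i,a}`, `(i, a) ∈ J`, are near to the origin,
`w_l(x(P_{i,a})) < -1/2` for `l = c i`, the denominators of the differences of two of these values with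
the same `i` are divisible by `M_l`, and the vectors `(w_l(u_1), …, w_l(u_k))`, `l ∈ R`, are linearly
independent. -/
def IndepM {L : ℕ} (M : Fin L → ℕ) (ρ : ℕ) (w : Fin L → (Ind q k ⊕ Fin N → WithTop ℚ)) : Prop :=
  ∃ (J : Finset ((i : Fin n) × Fin (q i))) (x : ((i : Fin n) × Fin (q i)) → ℚ) (c : Fin n → Fin L)
    (R : Finset (Fin L)) (v : Fin L → Fin k → ℚ),
    ∑ i, q i + k < J.card + R.card + ρ ∧
    (∀ j ∈ J, w (c j.1) (Sum.inl (Sum.inl j)) = (x j : WithTop ℚ) ∧ x j + 1 / 2 < 0) ∧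
    (∀ i ∈ J, ∀ j ∈ J, i ≠ j → i.1 = j.1 → M (c i.1) ∣ (x i - x j).den) ∧
    (∀ l ∈ R, ∀ a, w l (Sum.inl (Sum.inr a)) = (v l a : WithTop ℚ)) ∧
    LinearIndependent ℚ (fun l : R => v l)

/-- The rational numbers `a_1, …, a_L` cover `(T, ρ)` with the moduli `M_1, …, M_L`: there are values
`τ_l` for the coordinates in `T` such that all families of points `w_l` of the tropicalizations at
`a_l` with these values, and finite values of the coordinates `u`, satisfy `IndepM`. -/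
def Covers (F : κ → MvPolynomial (Ind q k ⊕ Fin N) (Polynomial (algebraicClosure ℚ ℂ)))
    {L : ℕ} (a : Fin L → ℚ) (M : Fin L → ℕ) (ρ : ℕ) (T : Finset (Ind q k)) : Prop :=
  ∃ τ : Fin L → Ind q k → ℚ, ∀ w : Fin L → (Ind q k ⊕ Fin N → WithTop ℚ),
    (∀ l b, w l (Sum.inl (Sum.inr b)) ≠ ⊤) →
    (∀ l j, TropAt (F j).support (ord F (a l) j) (w l)) →
    (∀ l, ∀ i ∈ T, w l (Sum.inl i) = (τ l i : WithTop ℚ)) → IndepM M ρ w

theorem indep_scale {L : ℕ} {M : Fin L → ℕ} {ρ : ℕ} (κκ : Fin L → ℕ) (hκ : ∀ l, ¬ M l ∣ κκ l)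
    (hκ0 : ∀ l, 0 < κκ l) {w : Fin L → (Ind q k ⊕ Fin N → WithTop ℚ)}
    (h : IndepM M ρ (fun l i => sc (κκ l : ℚ)⁻¹ (w l i))) : IndepP ρ w := by
  have hkQ : ∀ l, (0 : ℚ) < κκ l := fun l => by exact_mod_cast hκ0 l
  have hk1 : ∀ l, (1 : ℚ) ≤ κκ l := fun l => by exact_mod_cast hκ0 l
  have hback : ∀ l i, w l i = sc (κκ l : ℚ) (sc (κκ l : ℚ)⁻¹ (w l i)) := by
    intro l i
    rw [sc_sc, mul_inv_cancel₀ (hkQ l).ne', sc_one]
  obtain ⟨J, x, c, R, v, hJ, hx, hd, hR, hlin⟩ := h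
  refine ⟨J, fun j => κκ (c j.1) * x j, c, R, fun l a => κκ l * v l a, hJ, fun j hj => ?_,
    fun i hi j hj hij h1 N => ?_, fun l hl a => ?_, ?_⟩
  · obtain ⟨h1, h2⟩ := hx j hj
    have h1' : sc (κκ (c j.1) : ℚ)⁻¹ (w (c j.1) (Sum.inl (Sum.inl j))) = (x j : WithTop ℚ) := h1
    refine ⟨?_, ?_⟩
    · rw [hback, h1', sc_coe]
    · have h3 := hk1 (c j.1)
      change (κκ (c j.1) : ℚ) * x j + 1 / 2 < 0
      nlinarith
  · have h2 := not_int (hκ (c i.1)) (hd i hi j hj hij h1) N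
    intro h3
    apply h2
    change (κκ (c i.1) : ℚ) * x i - κκ (c j.1) * x j = N at h3
    rw [mul_sub, ← h3, h1]
  · have h1 := hR l hl a
    have h1' : sc (κκ l : ℚ)⁻¹ (w l (Sum.inl (Sum.inr a))) = (v l a : WithTop ℚ) := h1
    rw [hback, h1', sc_coe]
  · have h1 : (fun l : R => fun a => (κκ l : ℚ) * v l a) =
        (fun l : R => Units.mk0 (κκ l : ℚ) (hkQ l).ne') • (fun l : R => v l) := by
      funext l a
      rfl
    have h2 := hlin.units_smul (fun l : R => Units.mk0 (κκ l : ℚ) (hkQ l).ne')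
    rw [h1]
    exact h2

/-- The criterion. -/
theorem good [Finite κ] (hA : ∀ i, IsAlgebraic ℚ (A i)) (hB : ∀ i, IsAlgebraic ℚ (B i))
    (F : κ → MvPolynomial (Ind q k ⊕ Fin N) (Polynomial (algebraicClosure ℚ ℂ)))
    (D : Finset ℚ) (m : ℕ) : ∃ P₀ : ℕ, (∀ α ∈ D, α.den ≤ P₀) ∧ ∀ t : ℚ,
      (∀ (ρ : ℕ) (T : Finset (Ind q k)), T.card + ρ = m + 1 → ∃ (L : ℕ) (a : Fin L → ℚ)
        (M : Fin L → ℕ), (∀ l, a l ∈ D) ∧ Covers F a M ρ T ∧ ∀ l, GoodAt P₀ (M l) (num (a l) t)) →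
      NoAtypicalS m (MemberS F (t : ℂ) : Amb A B q k → Prop) := by
  classical
  obtain ⟨P₀, hden, hP₀⟩ := near_gen F D (Finset.univ.image A ∪ Finset.univ.image B) (by
    intro z hz
    rcases Finset.mem_union.1 hz with h | h
    · obtain ⟨i, -, rfl⟩ := Finset.mem_image.1 h
      exact hA i
    · obtain ⟨i, -, rfl⟩ := Finset.mem_image.1 h
      exact hB i)
  refine ⟨P₀, hden, fun t ht => ?_⟩
  let I := {x : ℕ × Finset (Ind q k) // x.2.card + x.1 = m + 1}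
  have ht' : ∀ x : I, ∃ (L : ℕ) (a : Fin L → ℚ) (M : Fin L → ℕ), (∀ l, a l ∈ D) ∧
      Covers F a M x.1.1 x.1.2 ∧ ∀ l, GoodAt P₀ (M l) (num (a l) t) := fun x =>
    ht x.1.1 x.1.2 x.2
  choose L a M haD hcov hgood using ht'
  choose p kk hp hpP hM h1 h2 using hgood
  have hk : ∀ x l, 0 < kk x l := fun x l => Nat.pos_of_ne_zero fun h0 => hM x l (h0 ▸ dvd_zero _)
  have hgen : GenericL m (fun j => (F j).support)
      (fun (x : Σ x : I, Fin (L x)) j β => kk x.1 x.2 * ord F (a x.1 x.2) j β) := by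
    intro ρ T hT
    obtain ⟨τ, hτ⟩ := hcov ⟨(ρ, T), hT⟩
    refine ⟨L ⟨(ρ, T), hT⟩, fun l => ⟨⟨(ρ, T), hT⟩, l⟩,
      fun l i => kk ⟨(ρ, T), hT⟩ l * τ l i, fun w hwu hw hwT => ?_⟩
    have hkQ : ∀ l, (kk ⟨(ρ, T), hT⟩ l : ℚ) ≠ 0 := fun l => by exact_mod_cast (hk _ l).ne'
    refine indep_scale (kk ⟨(ρ, T), hT⟩) (hM ⟨(ρ, T), hT⟩) (hk _) (hτ _ (fun l b => ?_)
      (fun l j => trop_sc (hk _ l) (hw l j)) fun l i hi => ?_)
    · intro h0
      obtain ⟨y, hy⟩ := WithTop.ne_top_iff_exists.1 (hwu l b)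
      rw [← hy, sc_coe] at h0
      exact WithTop.coe_ne_top h0
    · rw [hwT l i hi, sc_coe, inv_mul_cancel_left₀ (hkQ l)]
  refine core m (fun j => (F j).support)
    (fun j β => Polynomial.aeval (t : ℂ) ((F j).coeff β)) _ hgen (fun x => p x.1 x.2)
    (fun x => hp x.1 x.2) (fun x j β hβ V hV => ?_) (fun x V hV i => ⟨fun h => ?_, fun h => ?_⟩)
  · exact (hP₀ (p x.1 x.2) (hp x.1 x.2) (hpP x.1 x.2) V hV).2 (a x.1 x.2) (haD x.1 x.2) _
      (kk x.1 x.2) (hk x.1 x.2) (val_nearM (hp x.1 x.2) hV (hk x.1 x.2) t (a x.1 x.2)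
        (lt_of_le_of_lt (hden (a x.1 x.2) (haD x.1 x.2)) (hpP x.1 x.2)) (h1 x.1 x.2)
        (h2 x.1 x.2)) j β hβ
  · exact (hP₀ (p x.1 x.2) (hp x.1 x.2) (hpP x.1 x.2) V hV).1 _
      (Finset.mem_union_left _ (Finset.mem_image_of_mem _ (Finset.mem_univ i))) h
  · exact (hP₀ (p x.1 x.2) (hp x.1 x.2) (hpP x.1 x.2) V hV).1 _
      (Finset.mem_union_right _ (Finset.mem_image_of_mem _ (Finset.mem_univ i))) h

theorem GoodAt.of_dvd {P₀ M M' : ℕ} (h : M ∣ M') {z : ℤ} (hz : GoodAt P₀ M z) :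
    GoodAt P₀ M' z := by
  obtain ⟨p, l, h1, h2, h3, h4⟩ := hz
  exact ⟨p, l, h1, h2, fun h5 => h3 (h.trans h5), h4⟩

/-- One list for every `(T, ρ)`, with moduli divisible by `M`. -/
def Covered (m : ℕ) (F : κ → MvPolynomial (Ind q k ⊕ Fin N) (Polynomial (algebraicClosure ℚ ℂ)))
    (D : Finset ℚ) (M : ℕ) : Prop :=
  ∀ (ρ : ℕ) (T : Finset (Ind q k)), T.card + ρ = m + 1 → ∃ (L : ℕ) (a : Fin L → ℚ)
    (M' : Fin L → ℕ), (∀ l, a l ∈ D) ∧ (∀ l, M ∣ M' l) ∧ Covers F a M' ρ T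

/-- **All rational members outside finitely many classes.** -/
theorem classes [Finite κ] (hA : ∀ i, IsAlgebraic ℚ (A i)) (hB : ∀ i, IsAlgebraic ℚ (B i))
    (F : κ → MvPolynomial (Ind q k ⊕ Fin N) (Polynomial (algebraicClosure ℚ ℂ)))
    (D : Finset ℚ) (m M : ℕ) (hM : 2 ≤ M) (hcov : Covered m F D M) :
    ∃ 𝒞 : Finset ℤ, (∀ c ∈ 𝒞, c ≠ 0) ∧ ∀ t : ℚ,
      (∀ α ∈ D, ∀ c ∈ 𝒞, ∀ y : ℤ, t.num * α.den - α.num * t.den ≠ c * y ^ M) →
      NoAtypicalS m (MemberS F (t : ℂ) : Amb A B q k → Prop) := by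
  obtain ⟨P₀, -, hP₀⟩ := good hA hB F D m
  refine ⟨coefs P₀ M, fun c hc => (Finset.mem_filter.1 hc).2, fun t ht => hP₀ t fun ρ T hT => ?_⟩
  obtain ⟨L, a, M', ha, hMM, hc⟩ := hcov ρ T hT
  refine ⟨L, a, M', ha, hc, fun l => ?_⟩
  by_contra hbad
  have hbad' : ¬ GoodAt P₀ M (num (a l) t) := fun h => hbad (GoodAt.of_dvd (hMM l) h)
  obtain ⟨c, hc, y, hy⟩ := power_class hM _ hbad'
  exact ht (a l) (ha l) c hc y hy

/-- Enough lists: for every `(T, ρ)` with `|T| + ρ = m + 1` there are two disjoint lists of elements of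
`D` which cover `(T, ρ)`, the first one with moduli `≥ 3` (or `0`), the second one with moduli `≥ 2`
(or `0`), or three pairwise disjoint lists with even moduli. -/
def Enough (m : ℕ) (F : κ → MvPolynomial (Ind q k ⊕ Fin N) (Polynomial (algebraicClosure ℚ ℂ)))
    (D : Finset ℚ) : Prop :=
  ∀ (ρ : ℕ) (T : Finset (Ind q k)), T.card + ρ = m + 1 →
    (∃ (L L' : ℕ) (a : Fin L → ℚ) (a' : Fin L' → ℚ) (M : Fin L → ℕ) (M' : Fin L' → ℕ),
      ((∀ l, a l ∈ D) ∧ ∀ l, a' l ∈ D) ∧ (∀ l l', a l ≠ a' l') ∧ (∀ l, M l = 0 ∨ 3 ≤ M l) ∧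
      (∀ l, M' l = 0 ∨ 2 ≤ M' l) ∧ Covers F a M ρ T ∧ Covers F a' M' ρ T) ∨
    ∃ (L : Fin 3 → ℕ) (a : ∀ i, Fin (L i) → ℚ) (M : ∀ i, Fin (L i) → ℕ),
      (∀ i l, a i l ∈ D) ∧ (∀ i j l l', i ≠ j → a i l ≠ a j l') ∧ (∀ i l, 2 ∣ M i l) ∧
      ∀ i, Covers F (a i) (M i) ρ T

/-- **All but finitely many almost integral members.** -/
theorem members [Finite κ] (hA : ∀ i, IsAlgebraic ℚ (A i)) (hB : ∀ i, IsAlgebraic ℚ (B i))
    (F : κ → MvPolynomial (Ind q k ⊕ Fin N) (Polynomial (algebraicClosure ℚ ℂ)))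
    (D : Finset ℚ) (m : ℕ) (hD : Enough m F D) (s : ℕ) (hs : s ≠ 0) :
    {t : ℚ | (∃ (k : ℕ) (a : ℤ), (s : ℚ) ^ k * t = a) ∧
      ¬ NoAtypicalS m (MemberS F (t : ℂ) : Amb A B q k → Prop)}.Finite := by
  classical
  obtain ⟨P₀, hden, hP₀⟩ := good hA hB F D m
  let I := {x : ℕ × Finset (Ind q k) // x.2.card + x.1 = m + 1}
  have hIfin : Finite I := by
    have hinj : Function.Injective fun x : I => x.1.2 := by
      rintro ⟨⟨a, A'⟩, ha⟩ ⟨⟨b, B'⟩, hb⟩ h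
      simp only at h ha hb
      subst h
      have : a = b := by omega
      subst this
      rfl
    exact Finite.of_injective _ hinj
  have hfin : ∀ x : I, {t : ℚ | (∃ (k : ℕ) (a : ℤ), (s : ℚ) ^ k * t = a) ∧
      ∀ (L : ℕ) (a : Fin L → ℚ) (M : Fin L → ℕ), (∀ l, a l ∈ D) → Covers F a M x.1.1 x.1.2 →
        ∃ l, ¬ GoodAt P₀ (M l) (num (a l) t)}.Finite := by
    intro x
    rcases hD x.1.1 x.1.2 x.2 with ⟨L, L', a, a', M, M', ⟨ha, ha'⟩, hdis, hM, hM', hc, hc'⟩ |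
      ⟨L, a, M, ha, hdis, hM, hc⟩
    · have hfin1 : ∀ y : Fin L × Fin L', {t : ℚ | (∃ (k : ℕ) (a : ℤ), (s : ℚ) ^ k * t = a) ∧
          ¬ GoodAt P₀ (M y.1) (num (a y.1) t) ∧ ¬ GoodAt P₀ (M' y.2) (num (a' y.2) t)}.Finite := by
        intro y
        obtain ⟨μ, hμ, hμM⟩ : ∃ μ, 3 ≤ μ ∧ μ ∣ M y.1 := by
          rcases hM y.1 with h | h
          · exact ⟨3, le_rfl, by rw [h]; exact dvd_zero 3⟩
          · exact ⟨M y.1, h, dvd_rfl⟩
        obtain ⟨μ', hμ', hμM'⟩ : ∃ μ, 2 ≤ μ ∧ μ ∣ M' y.2 := by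
          rcases hM' y.2 with h | h
          · exact ⟨2, le_rfl, by rw [h]; exact dvd_zero 2⟩
          · exact ⟨M' y.2, h, dvd_rfl⟩
        refine (pair_finite (P₀ := P₀) hμ hμ' hs (hdis y.1 y.2) (hden _ (ha' y.2))).subset ?_
        rintro t ⟨h1, h2, h3⟩
        exact ⟨h1, fun h => h2 (GoodAt.of_dvd hμM h), fun h => h3 (GoodAt.of_dvd hμM' h)⟩
      refine (Set.finite_iUnion hfin1).subset ?_
      rintro t ⟨ht, hall⟩
      obtain ⟨l, hl⟩ := hall L a M ha hc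
      obtain ⟨l', hl'⟩ := hall L' a' M' ha' hc'
      rw [Set.mem_iUnion]
      exact ⟨(l, l'), ht, hl, hl'⟩
    · have hfin1 : ∀ y : Fin (L 0) × Fin (L 1) × Fin (L 2),
          {t : ℚ | (∃ (k : ℕ) (a : ℤ), (s : ℚ) ^ k * t = a) ∧
          ¬ GoodAt P₀ (M 0 y.1) (num (a 0 y.1) t) ∧ ¬ GoodAt P₀ (M 1 y.2.1) (num (a 1 y.2.1) t) ∧
          ¬ GoodAt P₀ (M 2 y.2.2) (num (a 2 y.2.2) t)}.Finite := by
        intro y
        refine (triple_finite (P₀ := P₀) hs (hdis 0 1 y.1 y.2.1 (by decide))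
          (hdis 0 2 y.1 y.2.2 (by decide)) (hdis 1 2 y.2.1 y.2.2 (by decide)) (hden _ (ha 0 _))
          (hden _ (ha 1 _)) (hden _ (ha 2 _))).subset ?_
        rintro t ⟨h1, h2, h3, h4⟩
        exact ⟨h1, fun h => h2 (GoodAt.of_dvd (hM _ _) h), fun h => h3 (GoodAt.of_dvd (hM _ _) h),
          fun h => h4 (GoodAt.of_dvd (hM _ _) h)⟩
      refine (Set.finite_iUnion hfin1).subset ?_
      rintro t ⟨ht, hall⟩
      obtain ⟨l, hl⟩ := hall (L 0) (a 0) (M 0) (ha 0) (hc 0)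
      obtain ⟨l', hl'⟩ := hall (L 1) (a 1) (M 1) (ha 1) (hc 1)
      obtain ⟨l'', hl''⟩ := hall (L 2) (a 2) (M 2) (ha 2) (hc 2)
      rw [Set.mem_iUnion]
      exact ⟨(l, l', l''), ht, hl, hl', hl''⟩
  refine (Set.finite_iUnion hfin).subset ?_
  rintro t ⟨ht, hbad⟩
  by_contra hcon
  apply hbad
  refine hP₀ t fun ρ T hT => ?_
  by_contra hno
  apply hcon
  rw [Set.mem_iUnion]
  refine ⟨⟨(ρ, T), hT⟩, ht, fun L a M ha hc => ?_⟩
  by_contra hall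
  push Not at hall
  exact hno ⟨L, a, M, ha, hc, hall⟩

end Run7.h383.SA
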