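import Pool.Agent.Run7.h383.PK.Integral

/-!
Split semiabelian varieties `∏ E_i^(q_i) × G_m^k`: the local criterion with several places (helper
file).
-/

set_option autoImplicit false

namespace Run7.h383.SA

open MvPolynomial Pool.Agent.R424.TG Pool.Agent.R424.PT Pool.Agent.W282.ZP Run7.h383.PK
open Pool.Agent.Results.MP_28d749_ag.RandomMultisections (curve xCoord EndRing InSubgroup)

/-- The complex points of `𝔖 = E_1^(q_1) × … × E_n^(q_n) × G_m^k`, with
`E_i : y² = x³ + A_i x + B_i`. -/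
structure Amb {n : ℕ} (A B : Fin n → ℂ) (q : Fin n → ℕ) (k : ℕ) where
  /-- the points `P_{i,l}` of `E_i` -/
  P : ∀ i, Fin (q i) → (curve (A i) (B i)).Point
  /-- the coordinates `u_w` in `G_m^k` -/
  u : Fin k → ℂ
  ne_zero : ∀ w, u w ≠ 0

/-- The index set of the coordinates `x(P_{i,l})` and `u_w`. -/
abbrev Ind {n : ℕ} (q : Fin n → ℕ) (k : ℕ) : Type := ((i : Fin n) × Fin (q i)) ⊕ Fin k

variable {n : ℕ} {q : Fin n → ℕ} {k : ℕ} {A B : Fin n → ℂ} {κ I : Type} {N : ℕ}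

/-- The coordinates `x(P_{i,l})` and `u_w` of a point. -/
def Amb.coord (z : Amb A B q k) : Ind q k → ℂ :=
  Sum.elim (fun j => xCoord (z.P j.1 j.2)) z.u

/-- The point `(u_1, …, u_k)` of `G_m^k` is in an algebraic subgroup of codimension at least `ρ`: there
are `ρ` linearly independent vectors `a` such that `∏ u_w ^ (a_w)` is a root of unity. -/
def InSubtorus {k : ℕ} (u : Fin k → ℂ) (ρ : ℕ) : Prop :=
  ∃ a : Fin ρ → Fin k → ℤ, LinearIndependent ℤ a ∧
    ∀ i, ∃ t : ℕ, 0 < t ∧ (∏ w, u w ^ a i w) ^ t = 1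

/-- The point `z` is in an algebraic subgroup of `𝔖` of codimension at least `ρ` (the product of
algebraic subgroups of the powers of the `E_i` and of `G_m^k`). -/
def InSpecial (z : Amb A B q k) (ρ : ℕ) : Prop :=
  ∃ (r : Fin n → ℕ) (s : ℕ), ρ ≤ ∑ i, r i + s ∧ (∀ i, InSubgroup (z.P i) (r i)) ∧
    InSubtorus z.u s

/-- The set of the system of equations `∑_β c j β z^β = 0` in `𝔖`: the points, with all `P_{i,l}`
different from the origin, such that for some `y ∈ ℂ^N` the equations hold for the coordinates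
`x(P_{i,l})`, `u_w` and `y`. -/
def OnS (supp : κ → Finset ((Ind q k ⊕ Fin N) →₀ ℕ)) (c : κ → ((Ind q k ⊕ Fin N) →₀ ℕ) → ℂ)
    (z : Amb A B q k) : Prop :=
  (∀ i l, z.P i l ≠ 0) ∧
    ∃ y : Fin N → ℂ, ∀ j, ∑ β ∈ supp j, c j β * ∏ i, Sum.elim z.coord y i ^ β i = 0

/-- `X` has no intersection of too large dimension with the algebraic subgroups of `𝔖`, if it is
regarded as a set of dimension `m`: for every `ρ` every point of `X` which is in an algebraic subgroup
of codimension at least `ρ` has transcendence degree at most `m - ρ`, and every irreducible closed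
set `W` of the coordinate space, such that its points outside of some hypersurface `g = 0`, which does
not contain `W`, are the coordinates of points of this kind, has dimension at most `m - ρ`. -/
def NoAtypicalS (m : ℕ) (X : Amb A B q k → Prop) : Prop :=
  ∀ ρ : ℕ,
    (∀ z, X z → InSpecial z ρ → ∀ T : Finset (Ind q k),
      AlgebraicIndependent ℚ (fun i : T => z.coord i) → T.card + ρ ≤ m) ∧
    ∀ (W : Set (Ind q k → ℂ)) (g : MvPolynomial (Ind q k) ℂ),
      (∀ w ∈ W, eval w g ≠ 0 → ∃ z : Amb A B q k, w = z.coord ∧ X z ∧ InSpecial z ρ) →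
      zcl W ⊆ W → (idealOf W).IsPrime → g ∉ idealOf W →
      zdim W + (ρ : Cardinal) ≤ (m : Cardinal)

/-- For a family of points `w_l` of tropicalizations: independence, with differences which are not
integers. -/
def IndepP {L : ℕ} (ρ : ℕ) (w : Fin L → (Ind q k ⊕ Fin N → WithTop ℚ)) : Prop :=
  ∃ (J : Finset ((i : Fin n) × Fin (q i))) (x : ((i : Fin n) × Fin (q i)) → ℚ) (c : Fin n → Fin L)
    (R : Finset (Fin L)) (v : Fin L → Fin k → ℚ),
    ∑ i, q i + k < J.card + R.card + ρ ∧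
    (∀ j ∈ J, w (c j.1) (Sum.inl (Sum.inl j)) = (x j : WithTop ℚ) ∧ x j + 1 / 2 < 0) ∧
    (∀ i ∈ J, ∀ j ∈ J, i ≠ j → i.1 = j.1 → ∀ N : ℤ, x i - x j ≠ N) ∧
    (∀ l ∈ R, ∀ a, w l (Sum.inl (Sum.inr a)) = (v l a : WithTop ℚ)) ∧
    LinearIndependent ℚ (fun l : R => v l)

/-- The condition for the local criterion. -/
def GenericL (m : ℕ) (supp : κ → Finset ((Ind q k ⊕ Fin N) →₀ ℕ))
    (e : I → κ → ((Ind q k ⊕ Fin N) →₀ ℕ) → ℕ) : Prop :=
  ∀ (ρ : ℕ) (T : Finset (Ind q k)), T.card + ρ = m + 1 →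
    ∃ (L : ℕ) (idx : Fin L → I) (τ : Fin L → Ind q k → ℚ),
      ∀ w : Fin L → (Ind q k ⊕ Fin N → WithTop ℚ), (∀ l b, w l (Sum.inl (Sum.inr b)) ≠ ⊤) →
        (∀ l j, TropAt (supp j) (e (idx l) j) (w l)) →
        (∀ l, ∀ i ∈ T, w l (Sum.inl i) = (τ l i : WithTop ℚ)) → IndepP ρ w

theorem torus_bound {k s : ℕ} {R : Type} [Fintype R] (v : R → Fin k → ℚ)
    (hv : LinearIndependent ℚ v) (a : Fin s → Fin k → ℤ) (ha : LinearIndependent ℤ a)
    (h : ∀ i l, ∑ w, (a i w : ℚ) * v l w = 0) : s + Fintype.card R ≤ k := by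
  classical
  let Mx : Matrix R (Fin k) ℚ := Matrix.of v
  have hrank : Mx.rank = Fintype.card R := LinearIndependent.rank_matrix hv
  have h1 := LinearMap.finrank_range_add_finrank_ker Mx.mulVecLin
  rw [Module.finrank_fin_fun] at h1
  have hinj : Function.Injective ((Algebra.linearMap ℤ ℚ).compLeft (Fin k)) := by
    intro x y hxy
    funext i
    have h1 : ((x i : ℤ) : ℚ) = ((y i : ℤ) : ℚ) := congrFun hxy i
    exact_mod_cast h1
  have haZ : LinearIndependent ℤ (fun i => (fun w => (a i w : ℚ)) : Fin s → Fin k → ℚ) := by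
    have := ha.map' ((Algebra.linearMap ℤ ℚ).compLeft (Fin k)) (LinearMap.ker_eq_bot.2 hinj)
    exact this
  have haQ : LinearIndependent ℚ (fun i => (fun w => (a i w : ℚ)) : Fin s → Fin k → ℚ) :=
    (LinearIndependent.iff_fractionRing ℤ ℚ).1 haZ
  let a' : Fin s → LinearMap.ker Mx.mulVecLin := fun i => ⟨fun w => (a i w : ℚ), by
    rw [LinearMap.mem_ker, Matrix.mulVecLin_apply]
    funext l
    rw [Matrix.mulVec, dotProduct, Pi.zero_apply, ← h i l]
    exact Finset.sum_congr rfl fun w _ => mul_comm _ _⟩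
  have h2 : LinearIndependent ℚ a' :=
    LinearIndependent.of_comp (LinearMap.ker Mx.mulVecLin).subtype haQ
  have h3 := h2.fintype_card_le_finrank
  rw [Fintype.card_fin] at h3
  have h4 : Module.finrank ℚ (LinearMap.range Mx.mulVecLin) = Fintype.card R := hrank
  omega

theorem indep_card {k s : ℕ} (a : Fin s → Fin k → ℤ) (ha : LinearIndependent ℤ a) : s ≤ k := by
  have h := ha.fintype_card_le_finrank
  rwa [Fintype.card_fin, Module.finrank_fin_fun] at h

/-- A multiplicative relation gives a linear relation between the values. -/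
theorem torus_rel {p : ℕ} {V : ValuationSubring ℂ} (hp0 : V.valuation (p : ℂ) ≠ 0)
    (hp1 : V.valuation (p : ℂ) < 1) (u : Fin k → ℂ) (a : Fin k → ℤ)
    {t : ℕ} (ht : 0 < t) (h : (∏ w, u w ^ a w) ^ t = 1) {n : ℕ} (kk : Fin k → ℤ)
    (hk : ∀ w, V.valuation (u w) ^ n = V.valuation (p : ℂ) ^ kk w) :
    ∑ w, a w * kk w = 0 := by
  set v := V.valuation with hv
  have h1 : (∏ w, v (u w) ^ a w) ^ t = 1 := by
    have := congrArg v h
    rwa [map_pow, map_prod, map_one, Finset.prod_congr rfl fun w _ => map_zpow₀ v (u w) (a w)]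
      at this
  have h2 : (∏ w, v (u w) ^ a w) ^ n = v (p : ℂ) ^ (∑ w, a w * kk w) := by
    rw [← Finset.prod_pow]
    have h3 : ∀ w, (v (u w) ^ a w) ^ n = v (p : ℂ) ^ (a w * kk w) := by
      intro w
      rw [← zpow_natCast, zpow_comm, zpow_natCast, hk w, ← zpow_mul, mul_comm]
    rw [Finset.prod_congr rfl fun w _ => h3 w]
    induction (Finset.univ : Finset (Fin k)) using Finset.induction_on with
    | empty => simp
    | insert i s hi ih => rw [Finset.prod_insert hi, Finset.sum_insert hi, zpow_add₀ hp0, ih]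
  have h3 : v (p : ℂ) ^ ((∑ w, a w * kk w) * t) = v (p : ℂ) ^ (0 : ℤ) := by
    rw [zpow_mul, zpow_natCast, ← h2, ← pow_mul, mul_comm, pow_mul, h1, one_pow, zpow_zero]
  have h4 : (∑ w, a w * kk w) * (t : ℤ) = 0 :=
    le_antisymm ((zle hp0 hp1).1 h3.ge) ((zle hp0 hp1).1 h3.le)
  rcases mul_eq_zero.1 h4 with h5 | h5
  · exact h5
  · omega

/-- The bound for points. -/
theorem point_bound (m : ℕ) (supp : κ → Finset ((Ind q k ⊕ Fin N) →₀ ℕ))
    (c : κ → ((Ind q k ⊕ Fin N) →₀ ℕ) → ℂ) (e : I → κ → ((Ind q k ⊕ Fin N) →₀ ℕ) → ℕ)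
    (hgen : GenericL m supp e) (p : I → ℕ) (hp : ∀ l, (p l).Prime)
    (he : ∀ l j, ∀ β ∈ supp j, OrdAt (p l) (c j β) (e l j β))
    (hAB : ∀ l, ∀ V : ValuationSubring ℂ, ((p l : ℕ) : ℂ) ∈ V.nonunits → ∀ i,
      (A i ≠ 0 → V.valuation (A i) = 1) ∧ (B i ≠ 0 → V.valuation (B i) = 1))
    {z : Amb A B q k} (hX : OnS supp c z) {ρ : ℕ} (hρ : InSpecial z ρ) (T : Finset (Ind q k))
    (hT : AlgebraicIndependent ℚ (fun i : T => z.coord i)) : T.card + ρ ≤ m := by
  classical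
  by_contra hcon
  push Not at hcon
  obtain ⟨hP0, y, hy⟩ := hX
  obtain ⟨r, s, hrs, hell, hs⟩ := hρ
  -- smaller `T` and `ρ`
  obtain ⟨T', ρ', hT', hρ', hcard⟩ : ∃ (T' : Finset (Ind q k)) (ρ' : ℕ), T' ⊆ T ∧ ρ' ≤ ρ ∧
      T'.card + ρ' = m + 1 := by
    by_cases h : m + 1 ≤ T.card
    · obtain ⟨T', h1, h2⟩ := Finset.exists_subset_card_eq h
      exact ⟨T', 0, h1, Nat.zero_le _, by omega⟩
    · exact ⟨T, m + 1 - T.card, subset_rfl, by omega, by omega⟩
  obtain ⟨L, idx, τ, hτ⟩ := hgen ρ' T' hcard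
  have hT'' : AlgebraicIndependent ℚ (fun i : T' => z.coord i) :=
    hT.comp (fun i : T' => (⟨i, hT' i.2⟩ : T)) fun i j h =>
      Subtype.ext (congrArg (fun x : T => (x : Ind q k)) h)
  have hV' : ∀ l : Fin L, ∃ V : ValuationSubring ℂ, ((p (idx l) : ℕ) : ℂ) ∈ V.nonunits ∧
      (∀ i : T', V.valuation (z.coord i) ^ (τ l i).den =
        V.valuation ((p (idx l) : ℕ) : ℂ) ^ (τ l i).num) ∧ RatVal V (p (idx l)) := fun l =>
    exists_val_prescribed (fun i : T' => z.coord i) hT'' (hp (idx l))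
      (fun i => (τ l i).den) (fun i => (τ l i).den_pos) (fun i => (τ l i).num)
  choose V hV hVx hrat using hV'
  have hp1 : ∀ l, (V l).valuation (p (idx l) : ℂ) < 1 := fun l => by
    have := hV l
    rwa [ValuationSubring.mem_nonunits_iff] at this
  have hpC : ∀ l, ((p (idx l) : ℕ) : ℂ) ≠ 0 := fun l => by exact_mod_cast (hp (idx l)).ne_zero
  have hp0 : ∀ l, (V l).valuation (p (idx l) : ℂ) ≠ 0 := fun l =>
    (Valuation.ne_zero_iff _).2 (hpC l)
  let zz : Ind q k ⊕ Fin N → ℂ := Sum.elim z.coord y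
  have hcommon : ∀ l, ∃ nn : ℕ, 0 < nn ∧ ∃ kk : Ind q k ⊕ Fin N → ℤ, ∀ i, zz i ≠ 0 →
      (V l).valuation (zz i) ^ nn = (V l).valuation (p (idx l) : ℂ) ^ kk i := fun l =>
    common (hrat l) zz
  choose nn hnn kk hkk using hcommon
  have hnQ : ∀ l, (0 : ℚ) < nn l := fun l => by exact_mod_cast hnn l
  let w : Fin L → (Ind q k ⊕ Fin N → WithTop ℚ) :=
    fun l i => if zz i = 0 then ⊤ else ((kk l i / nn l : ℚ) : WithTop ℚ)
  have hw0 : ∀ l i, zz i = 0 → w l i = ⊤ := fun l i h => if_pos h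
  have hw1 : ∀ l i, zz i ≠ 0 → w l i = ((kk l i / nn l : ℚ) : WithTop ℚ) := fun l i h => if_neg h
  have htrop : ∀ l j, TropAt (supp j) (e (idx l) j) (w l) := fun l j =>
    trop_point (hp0 l) (hp1 l) (supp j) (c j) (e (idx l) j)
      (fun β hβ => he (idx l) j β hβ (V l) (hV l)) zz (hy j) (hnn l) (kk l) (hkk l) (w l)
      (hw0 l) (hw1 l)
  have hwT : ∀ l, ∀ i ∈ T', w l (Sum.inl i) = (τ l i : WithTop ℚ) := by
    intro l i hi
    have h0 : zz (Sum.inl i) ≠ 0 := by
      have h1 := hT''.ne_zero ⟨i, hi⟩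
      exact h1
    rw [hw1 l _ h0]
    congr 1
    have h1 : (V l).valuation (zz (Sum.inl i)) ^ (τ l i).den =
        (V l).valuation (p (idx l) : ℂ) ^ (τ l i).num := hVx l ⟨i, hi⟩
    have h2 := hkk l _ h0
    have h3 : (V l).valuation (p (idx l) : ℂ) ^ ((τ l i).num * nn l) =
        (V l).valuation (p (idx l) : ℂ) ^ (kk l (Sum.inl i) * (τ l i).den) := by
      rw [zpow_mul, zpow_mul, zpow_natCast, zpow_natCast, ← h1, ← h2, ← pow_mul, ← pow_mul,
        mul_comm]
    have h4 : (τ l i).num * (nn l : ℤ) = kk l (Sum.inl i) * (τ l i).den :=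
      le_antisymm ((zle (hp0 l) (hp1 l)).1 h3.ge) ((zle (hp0 l) (hp1 l)).1 h3.le)
    have h5 : ((τ l i).num : ℚ) * nn l = kk l (Sum.inl i) * (τ l i).den := by exact_mod_cast h4
    have hdQ : (0 : ℚ) < (τ l i).den := by exact_mod_cast (τ l i).den_pos
    rw [div_eq_iff (hnQ l).ne']
    have h6 : ((τ l i).num : ℚ) = τ l i * (τ l i).den := (Rat.mul_den_eq_num _).symm
    rw [h6] at h5
    have h7 : (τ l i * nn l) * ((τ l i).den : ℚ) = kk l (Sum.inl i) * (τ l i).den := by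
      rw [← h5]
      ring
    exact (mul_right_cancel₀ hdQ.ne' h7).symm
  have hzu : ∀ b, zz (Sum.inl (Sum.inr b)) ≠ 0 := fun b => z.ne_zero b
  have hwu : ∀ l b, w l (Sum.inl (Sum.inr b)) ≠ ⊤ := fun l b => by
    rw [hw1 l _ (hzu b)]
    exact WithTop.coe_ne_top
  obtain ⟨J, x, cc, R, v, hJR, hJ, hdis, hR, hlin⟩ := hτ w hwu htrop hwT
  have hxz : ∀ j ∈ J, zz (Sum.inl (Sum.inl j)) ≠ 0 ∧
      (x j : ℚ) = kk (cc j.1) (Sum.inl (Sum.inl j)) / nn (cc j.1) := by
    intro j hj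
    have h1 := (hJ j hj).1
    by_cases h0 : zz (Sum.inl (Sum.inl j)) = 0
    · rw [hw0 _ _ h0] at h1
      exact absurd h1.symm (WithTop.coe_ne_top)
    · rw [hw1 _ _ h0] at h1
      exact ⟨h0, (WithTop.coe_injective h1).symm⟩
  -- the elliptic curves
  let Ji : ∀ i : Fin n, Finset (Fin (q i)) := fun i => Finset.univ.filter fun l => (⟨i, l⟩ :
    (i : Fin n) × Fin (q i)) ∈ J
  have hJi : ∀ i, (Ji i).card + r i ≤ q i := by
    intro i
    obtain ⟨hA, hB⟩ := And.intro (fun h => (hAB (idx (cc i)) (V (cc i)) (hV (cc i)) i).1 h)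
      (fun h => (hAB (idx (cc i)) (V (cc i)) (hV (cc i)) i).2 h)
    refine rel_bound (hp (idx (cc i))) (hV (cc i)) (hrat (cc i)) (z.P i) (hell i) (hnn (cc i)) 0 0
      (fun h => by rw [hA h, one_pow, zpow_zero]) (fun h => by rw [hB h, one_pow, zpow_zero]) 0
      (fun _ => by simp) (fun _ => by simp) (Ji i)
      (fun l => kk (cc i) (Sum.inl (Sum.inl ⟨i, l⟩))) (fun l hl => ?_) (fun l hl => ?_)
      fun l hl l' hl' hll' N => ?_
    · have hl' := (Finset.mem_filter.1 hl).2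
      exact ⟨(hxz _ hl').1, hkk (cc i) _ (hxz _ hl').1⟩
    · have hl' := (Finset.mem_filter.1 hl).2
      have h1 := (hJ _ hl').2
      rw [(hxz _ hl').2] at h1
      exact h1
    · have h1 := (Finset.mem_filter.1 hl).2
      have h2 := (Finset.mem_filter.1 hl').2
      have h3 := hdis _ h1 _ h2 (fun h => hll' (by simpa using h)) rfl N
      rw [(hxz _ h1).2, (hxz _ h2).2] at h3
      exact h3
  have hJcard : J.card = ∑ i, (Ji i).card := by
    have h1 : J = Finset.univ.sigma Ji := by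
      ext ⟨i, l⟩
      simp [Ji]
    conv_lhs => rw [h1]
    rw [Finset.card_sigma]
  -- the torus
  obtain ⟨a, ha, harel⟩ := hs
  have htor : s + Fintype.card R ≤ k := by
    refine torus_bound (fun l : R => v l) hlin a ha fun i l => ?_
    obtain ⟨t, ht, hrel⟩ := harel i
    have h1 := torus_rel (hp0 l) (hp1 l) z.u (a i) ht hrel (n := nn l)
      (fun b => kk l (Sum.inl (Sum.inr b))) fun b => hkk l _ (hzu b)
    have h2 : ∀ b, v l b = kk l (Sum.inl (Sum.inr b)) / nn l := by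
      intro b
      have h3 := hR l l.2 b
      rw [hw1 _ _ (hzu b)] at h3
      exact (WithTop.coe_injective h3).symm
    have h3 : ∑ b, (a i b : ℚ) * v l b =
        ((∑ b, a i b * kk l (Sum.inl (Sum.inr b)) : ℤ) : ℚ) / nn l := by
      push_cast
      rw [Finset.sum_div]
      exact Finset.sum_congr rfl fun b _ => by rw [h2 b, mul_div_assoc]
    rw [h3, h1, Int.cast_zero, zero_div]
  rw [Fintype.card_coe] at htor
  have hsum : ∑ i, (Ji i).card + ∑ i, r i ≤ ∑ i, q i := by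
    rw [← Finset.sum_add_distrib]
    exact Finset.sum_le_sum fun i _ => hJi i
  omega

/-- The local criterion. -/
theorem core (m : ℕ) (supp : κ → Finset ((Ind q k ⊕ Fin N) →₀ ℕ))
    (c : κ → ((Ind q k ⊕ Fin N) →₀ ℕ) → ℂ) (e : I → κ → ((Ind q k ⊕ Fin N) →₀ ℕ) → ℕ)
    (hgen : GenericL m supp e) (p : I → ℕ) (hp : ∀ l, (p l).Prime)
    (he : ∀ l j, ∀ β ∈ supp j, OrdAt (p l) (c j β) (e l j β))
    (hAB : ∀ l, ∀ V : ValuationSubring ℂ, ((p l : ℕ) : ℂ) ∈ V.nonunits → ∀ i,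
      (A i ≠ 0 → V.valuation (A i) = 1) ∧ (B i ≠ 0 → V.valuation (B i) = 1)) :
    NoAtypicalS m (OnS supp c : Amb A B q k → Prop) := by
  intro ρ
  refine ⟨fun z hX hρ T hT => point_bound m supp c e hgen p hp he hAB hX hρ T hT,
    fun W g hW hcl hprime hg => ?_⟩
  obtain ⟨w, hwW, hw0, T, hT, hdim⟩ := Pool.Agent.W282.SI.generic_dim' ℚ W hprime
    (β := Unit) (fun _ => g) fun _ => hg
  obtain ⟨z, hw, hX, hρ⟩ := hW w (hcl hwW) (hw0 ())
  rw [hw] at hT
  have h4 := point_bound m supp c e hgen p hp he hAB hX hρ T hT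
  calc zdim W + (ρ : Cardinal) ≤ (T.card : Cardinal) + (ρ : Cardinal) := by gcongr
    _ = ((T.card + ρ : ℕ) : Cardinal) := by push_cast; rfl
    _ ≤ (m : Cardinal) := by exact_mod_cast h4

end Run7.h383.SA
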